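import Pool.Agent.W761.CB.Stms
import Pool.Agent.W975.CB.Ms
import Pool.Agent.W366.CB.Lam
import Pool.Agent.W417.CB.Ebc

set_option autoImplicit false

open MeasureTheory
open scoped ENNReal

namespace Pool.Agent.W131.CB

open Pool.Agent.W761.CB

lemma pr_meas (n : ℕ) (L : ℝ) : Measurable (pr L : (Fin n → ℝ) → Tor n L) := by
  unfold pr
  refine measurable_pi_lambda _ (fun c => ?_)
  exact (AddCircle.measurable_mk').comp (measurable_pi_apply c)

lemma ec_add {n : ℕ} (L : ℝ) (c : Fin n) (h : ℝ) : ec L c (h + h) = ec L c h + ec L c h := by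
  unfold ec pr
  funext d
  simp only [Pi.add_apply]
  by_cases hd : d = c
  · subst hd
    simp
  · simp [Pi.single_eq_of_ne hd]

lemma sq_add (a b : ℂ) : ‖a + b‖ₑ ^ 2 ≤ 2 * ‖a‖ₑ ^ 2 + 2 * ‖b‖ₑ ^ 2 := by
  have h : ‖a + b‖₊ ^ 2 ≤ 2 * ‖a‖₊ ^ 2 + 2 * ‖b‖₊ ^ 2 := by
    calc ‖a + b‖₊ ^ 2 ≤ (‖a‖₊ + ‖b‖₊) ^ 2 := by
          gcongr
          exact nnnorm_add_le a b
      _ ≤ 2 * (‖a‖₊ ^ 2 + ‖b‖₊ ^ 2) := add_sq_le
      _ = _ := by ring
  simp only [enorm_eq_nnnorm]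
  exact_mod_cast h

lemma d1_double {n : ℕ} {L : ℝ} [Fact (0 < L)] {f : Tor n L → ℂ} (hf : Measurable f)
    (h : Tor n L) : d1 f (h + h) ≤ 4 * d1 f h := by
  unfold d1
  have hm : ∀ u : Tor n L, Measurable (fun x => f (x + u)) := fun u =>
    hf.comp (measurable_id.add_const u)
  calc ∫⁻ x, ‖f (x + (h + h)) - f x‖ₑ ^ 2
      ≤ ∫⁻ x, (2 * ‖f (x + h + h) - f (x + h)‖ₑ ^ 2 + 2 * ‖f (x + h) - f x‖ₑ ^ 2) := by
        refine lintegral_mono (fun x => ?_)
        have : f (x + (h + h)) - f x = (f (x + h + h) - f (x + h)) + (f (x + h) - f x) := by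
          rw [add_assoc]; ring
        rw [this]
        exact sq_add _ _
    _ = 2 * (∫⁻ x, ‖f (x + h + h) - f (x + h)‖ₑ ^ 2) + 2 * ∫⁻ x, ‖f (x + h) - f x‖ₑ ^ 2 := by
        have hg : Measurable (fun x => ‖f (x + h) - f x‖ₑ ^ 2) :=
          (((hm h).sub hf).enorm).pow_const 2
        have hg2 : Measurable (fun x => ‖f (x + h + h) - f (x + h)‖ₑ ^ 2) :=
          hg.comp (measurable_id.add_const h)
        rw [lintegral_add_left (hg2.const_mul 2), lintegral_const_mul _ hg2,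
          lintegral_const_mul _ hg]
    _ = 2 * (∫⁻ x, ‖f (x + h) - f x‖ₑ ^ 2) + 2 * ∫⁻ x, ‖f (x + h) - f x‖ₑ ^ 2 := by
        congr 2
        exact lintegral_add_right_eq_self (fun x => ‖f (x + h) - f x‖ₑ ^ 2) h
    _ = _ := by ring

lemma mono_k {n : ℕ} {L : ℝ} [Fact (0 < L)] {f : Tor n L → ℂ} (hf : Measurable f) (c : Fin n) :
    Monotone (fun k : ℕ => (4 : ℝ≥0∞) ^ k * d1 f (ec L c ((2 : ℝ)⁻¹ ^ k))) := by
  apply monotone_nat_of_le_succ
  intro k
  have h1 : ec L c ((2 : ℝ)⁻¹ ^ k) =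
      ec L c ((2 : ℝ)⁻¹ ^ (k + 1)) + ec L c ((2 : ℝ)⁻¹ ^ (k + 1)) := by
    rw [← ec_add]
    congr 1
    rw [pow_succ]; ring
  rw [h1]
  calc (4 : ℝ≥0∞) ^ k * d1 f (ec L c ((2 : ℝ)⁻¹ ^ (k + 1)) + ec L c ((2 : ℝ)⁻¹ ^ (k + 1)))
      ≤ 4 ^ k * (4 * d1 f (ec L c ((2 : ℝ)⁻¹ ^ (k + 1)))) := by
        gcongr
        exact d1_double hf _
    _ = 4 ^ (k + 1) * d1 f (ec L c ((2 : ℝ)⁻¹ ^ (k + 1))) := by
        rw [pow_succ (4 : ℝ≥0∞) k, mul_assoc]

theorem fib : S_FIB := by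
  intro n L _ μ K hK F hF
  have hEBC := Pool.Agent.W417.CB.proof_ebc Pool.Agent.W975.CB.proof_ms
    (Pool.Agent.W366.CB.proof_lam Pool.Agent.W975.CB.proof_ms) (Tor n L) volume F F hF hF
  have hLAM := (Pool.Agent.W366.CB.proof_lam Pool.Agent.W975.CB.proof_ms) (Tor n L) volume
  have : IsFiniteMeasure (lam (volume : Measure (Tor n L))) := hLAM.2.1
  have hFm : Measurable (fun p : Tor n L × Cf (Tor n L) => F (p.1 ::ₘ ms p.2)) :=
    hEBC.2.2.2.2.1
  -- joint measurability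
  have hΦ : Measurable (fun q : (Cf (Tor n L) × (Fin n → ℝ)) × Tor n L =>
      ‖F ((q.2 + pr L q.1.2) ::ₘ ms q.1.1) - F (q.2 ::ₘ ms q.1.1)‖ₑ ^ 2) := by
    have h1 : Measurable (fun q : (Cf (Tor n L) × (Fin n → ℝ)) × Tor n L =>
        F ((q.2 + pr L q.1.2) ::ₘ ms q.1.1)) := by
      have h2 : Measurable (fun q : (Cf (Tor n L) × (Fin n → ℝ)) × Tor n L =>
          ((q.2 + pr L q.1.2, q.1.1) : Tor n L × Cf (Tor n L))) :=
        (measurable_snd.add ((pr_meas n L).comp (measurable_snd.comp measurable_fst))).prodMk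
          (measurable_fst.comp measurable_fst)
      exact hFm.comp h2
    have h3 : Measurable (fun q : (Cf (Tor n L) × (Fin n → ℝ)) × Tor n L =>
        F (q.2 ::ₘ ms q.1.1)) :=
      hFm.comp (measurable_snd.prodMk (measurable_fst.comp measurable_fst))
    exact ((h1.sub h3).enorm).pow_const 2
  have hΨ : ∀ h : Tor n L, Measurable (fun q : Cf (Tor n L) × Tor n L =>
      ‖F ((q.2 + h) ::ₘ ms q.1) - F (q.2 ::ₘ ms q.1)‖ₑ ^ 2) := by
    intro h
    have h1 : Measurable (fun q : Cf (Tor n L) × Tor n L => F ((q.2 + h) ::ₘ ms q.1)) :=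
      hFm.comp ((measurable_snd.add_const h).prodMk measurable_fst)
    have h3 : Measurable (fun q : Cf (Tor n L) × Tor n L => F (q.2 ::ₘ ms q.1)) :=
      hFm.comp (measurable_snd.prodMk measurable_fst)
    exact ((h1.sub h3).enorm).pow_const 2
  -- Tonelli
  have hton : ∀ h : Tor n L, ∫⁻ γ, d1 (fun x => F (x ::ₘ ms γ)) h ∂(lam volume) =
      ∫⁻ x, dE volume F (x + h) x := by
    intro h
    unfold d1 dE nE
    exact lintegral_lintegral_swap (hΨ h).aemeasurable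
  have hd1m : ∀ h : Tor n L, Measurable (fun γ : Cf (Tor n L) =>
      d1 (fun x => F (x ::ₘ ms γ)) h) := fun h => (hΨ h).lintegral_prod_right'
  have hd1m2 : Measurable (fun q : Cf (Tor n L) × (Fin n → ℝ) =>
      d1 (fun x => F (x ::ₘ ms q.1)) (pr L q.2)) := hΦ.lintegral_prod_right'
  have hfm : ∀ γ : Cf (Tor n L), Measurable (fun x : Tor n L => F (x ::ₘ ms γ)) := fun γ =>
    hFm.comp (measurable_id.prodMk measurable_const)
  unfold ken ken1 Kp Hp
  have hA : Measurable (fun γ : Cf (Tor n L) => ∑ c : Fin n, ⨆ k : ℕ,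
      (4 : ℝ≥0∞) ^ k * d1 (fun x => F (x ::ₘ ms γ)) (ec L c ((2 : ℝ)⁻¹ ^ k))) := by
    refine Finset.measurable_fun_sum _ (fun c _ => ?_)
    exact Measurable.iSup (fun k => (hd1m _).const_mul _)
  rw [lintegral_add_left (hA.const_mul μ), lintegral_const_mul _ hA]
  congr 1
  · congr 1
    rw [lintegral_finsetSum _ (fun c _ => Measurable.iSup (fun k => (hd1m _).const_mul _))]
    refine Finset.sum_congr rfl (fun c _ => ?_)
    rw [lintegral_iSup (fun k => (hd1m _).const_mul _)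
      (fun i j hij γ => mono_k (hfm γ) c hij)]
    refine iSup_congr (fun k => ?_)
    rw [lintegral_const_mul _ (hd1m _), hton]
  · have hB : Measurable (fun q : Cf (Tor n L) × (Fin n → ℝ) =>
        K q.2 * d1 (fun x => F (x ::ₘ ms q.1)) (pr L q.2)) :=
      (hK.comp measurable_snd).mul hd1m2
    rw [lintegral_const_mul _ hB.lintegral_prod_right']
    congr 1
    rw [lintegral_lintegral_swap hB.aemeasurable]
    refine lintegral_congr (fun z => ?_)
    dsimp only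
    rw [lintegral_const_mul _ (hd1m _), hton]

end Pool.Agent.W131.CB
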